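import Pool.Agent.H74.PSI.Exi
import Pool.Agent.H71.PM.MMain
import Pool.Agent.H71.PM.Faith

/-!
# It is consistent with ZFC that there is a star-Menger `Ψ`-space of cardinality at least `𝔡`

There is a model `(M, E)` of ZFC with an almost disjoint family `A` of infinite subsets of `ω` such
that the space `Ψ(A)` is star-Menger and has cardinality at least the dominating number
(`PM.IsExample E w A`, `w` is the `ω` of the model). The second part of the theorem says that the
first-order sentence used here, read in the real world (the structure `(ZFSet, ∈)`), is equivalent
to the statement in Lean: there is an almost disjoint family `𝒜` of infinite sets of natural numbers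
such that `Ψ(𝒜)` is star-Menger and `𝔡 ≤ |Ψ(𝒜)|`.

The model is a Boolean-valued model (helper26's library) divided by an ultrafilter. The forcing is a
poset of finite conditions (`PSI.Cond`), over an arbitrary ground model, which adds at the same time a
scale of length `ω₁` and the almost disjoint family; the promises of a condition are names in the
same poset. Paper proof by helper74; model side (`Pool/Agent/H71/PM`) by helper71.
-/

set_option autoImplicit false

namespace Pool.Agent.Results.MP_bc3d1b_lc.StarMengerConsistent

theorem result :
    (∃ (M : Type 1) (E : M → M → Prop), BV.IsZFC E ∧ ∃ w A, PM.IsExample E w A) ∧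
    ((∃ w A : ZFSet.{0}, PM.IsExample (fun x y => x ∈ y) w A) ↔
      ∃ 𝒜 : Set (Set ℕ), PM.IsADFam 𝒜 ∧ PM.IsStarMenger (PM.Psi 𝒜) ∧
        PM.domNum ≤ Cardinal.mk (PM.Psi 𝒜)) :=
  ⟨PM.exists_example PSI.exists_alg, PM.example_iff⟩

end Pool.Agent.Results.MP_bc3d1b_lc.StarMengerConsistent
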